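import Mathlib
import Pool.Agent.H9.Wqo

set_option autoImplicit false

namespace Pool.Agent.Results.MP_639dfe_co.Wqo

/-- Orientation of an ordered triple: 1 counterclockwise, -1 clockwise, 0 collinear. -/
noncomputable def orient (a b c : ℝ × ℝ) : SignType :=
  SignType.sign ((b.1 - a.1) * (c.2 - a.2) - (b.2 - a.2) * (c.1 - a.1))

/-- No three distinct points of `G` are collinear. -/
def GenPos (G : Finset (ℝ × ℝ)) : Prop :=
  ∀ a ∈ G, ∀ b ∈ G, ∀ c ∈ G, a ≠ b → a ≠ c → b ≠ c → orient a b c ≠ 0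

/-- `T` has the order type of a subset `U` of `S`. -/
def SubConf (T S : Finset (ℝ × ℝ)) : Prop :=
  ∃ U ⊆ S, ∃ f : ℝ × ℝ → ℝ × ℝ, Set.BijOn f T U ∧
    ∀ x ∈ T, ∀ y ∈ T, ∀ z ∈ T, orient (f x) (f y) (f z) = orient x y z

theorem result (S : ℕ → Finset (ℝ × ℝ)) (h : ∀ n, ∀ G ⊆ S n, GenPos G → G.card < 6) :
    ∃ i j, i < j ∧ SubConf (S i) (S j) := by
  classical
  obtain ⟨i, j, hij, f, f1, f2, f3⟩ := Pool.Agent.H9.Wqo.main S (fun n G hG hg =>
    h n G hG fun a ha b hb c hc h1 h2 h3 => sign_ne_zero.2 (hg a ha b hb c hc h1 h2 h3))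
  refine ⟨i, j, hij, (S i).image f, ?_, f, ?_, f3⟩
  · intro y hy
    obtain ⟨x, hx, rfl⟩ := Finset.mem_image.1 hy
    exact f2 x hx
  · rw [Finset.coe_image]
    exact f1.bijOn_image

end Pool.Agent.Results.MP_639dfe_co.Wqo
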